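import Pool.Agent.N612.WC.Core

/-!
# Martin's axiom and the negation of the continuum hypothesis imply `ω₁ < 𝔭` (Booth)
-/

set_option autoImplicit false

open Set Filter Topology Cardinal

namespace Pool.Agent.N612.WC

/-- Martin's axiom: every ccc partial order has, for every family of fewer than `𝔠` dense sets, a
filter meeting all of them. -/
def MartinAxiom : Prop :=
  ∀ (P : Type) [PartialOrder P] [Nonempty P],
    (∀ A : Set P, (∀ a ∈ A, ∀ b ∈ A, a ≠ b → ¬ ∃ c : P, c ≤ a ∧ c ≤ b) → A.Countable) →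
      ∀ (ι : Type) (D : ι → Set P), #ι < 𝔠 → (∀ i, ∀ p : P, ∃ q ∈ D i, q ≤ p) →
        ∃ G : Set P, G.Nonempty ∧ (∀ a ∈ G, ∀ b : P, a ≤ b → b ∈ G) ∧
          (∀ a ∈ G, ∀ b ∈ G, ∃ c ∈ G, c ≤ a ∧ c ≤ b) ∧ ∀ i, (D i ∩ G).Nonempty

/-- the partial order of the proof -/
structure BP {I : Type} (F : I → Set ℕ) where
  fst : Finset ℕ
  snd : Finset I

namespace BP

variable {I : Type} {F : I → Set ℕ}

instance : PartialOrder (BP F) where
  le p q := q.fst ⊆ p.fst ∧ q.snd ⊆ p.snd ∧ ∀ n ∈ p.fst, n ∉ q.fst → ∀ i ∈ q.snd, n ∈ F i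
  le_refl p := ⟨subset_rfl, subset_rfl, fun n h1 h2 => absurd h1 h2⟩
  le_trans p q r h1 h2 := by
    refine ⟨h2.1.trans h1.1, h2.2.1.trans h1.2.1, fun n hn hnr i hi => ?_⟩
    by_cases h : n ∈ q.fst
    · exact h2.2.2 n h hnr i hi
    · exact h1.2.2 n hn h i (h2.2.1 hi)
  le_antisymm p q h1 h2 := by
    obtain ⟨a, b⟩ := p
    obtain ⟨c, d⟩ := q
    have e1 : a = c := Finset.Subset.antisymm h2.1 h1.1
    have e2 : b = d := Finset.Subset.antisymm h2.2.1 h1.2.1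
    rw [e1, e2]

theorem le_def (p q : BP F) :
    p ≤ q ↔ q.fst ⊆ p.fst ∧ q.snd ⊆ p.snd ∧ ∀ n ∈ p.fst, n ∉ q.fst → ∀ i ∈ q.snd, n ∈ F i :=
  Iff.rfl

end BP

/-- **Booth's lemma** for `ω₁`. -/
theorem booth (h : MartinAxiom) (hc : (ℵ₁ : Cardinal.{0}) < 𝔠) : OmegaOneLtP := by
  classical
  intro I F hI hF
  have hne : Nonempty (BP F) := ⟨⟨∅, ∅⟩⟩
  have hccc : ∀ A : Set (BP F), (∀ a ∈ A, ∀ b ∈ A, a ≠ b → ¬ ∃ c : BP F, c ≤ a ∧ c ≤ b) →
      A.Countable := by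
    intro A hA
    have hinj : Set.InjOn BP.fst A := by
      intro a ha b hb hab
      by_contra hne
      refine hA a ha b hb hne ⟨⟨a.fst, a.snd ∪ b.snd⟩, ?_, ?_⟩
      · rw [BP.le_def]
        exact ⟨subset_rfl, Finset.subset_union_left, fun n h1 h2 => absurd h1 h2⟩
      · rw [BP.le_def, ← hab]
        exact ⟨subset_rfl, Finset.subset_union_right, fun n h1 h2 => absurd h1 h2⟩
    exact Set.countable_of_injective_of_countable_image hinj (Set.to_countable _)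
  let D : I ⊕ ℕ → Set (BP F) := fun j =>
    match j with
    | Sum.inl i => {p | i ∈ p.snd}
    | Sum.inr n => {p | ∃ m ∈ p.fst, n ≤ m}
  have hcard : #(I ⊕ ℕ) < 𝔠 := by
    rw [Cardinal.mk_sum, lift_id, lift_id, mk_nat]
    refine lt_of_le_of_lt (add_le_of_le (aleph0_le_aleph 1) hI (aleph0_le_aleph 1)) hc
  have hD : ∀ j, ∀ p : BP F, ∃ q ∈ D j, q ≤ p := by
    rintro (i | n) p
    · refine ⟨⟨p.fst, insert i p.snd⟩, Finset.mem_insert_self _ _, ?_⟩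
      rw [BP.le_def]
      exact ⟨subset_rfl, Finset.subset_insert _ _, fun n h1 h2 => absurd h1 h2⟩
    · obtain ⟨m, hm, hnm⟩ := (hF p.snd).exists_gt n
      refine ⟨⟨insert m p.fst, p.snd⟩, ⟨m, Finset.mem_insert_self _ _, hnm.le⟩, ?_⟩
      rw [BP.le_def]
      refine ⟨Finset.subset_insert _ _, subset_rfl, fun k h1 h2 i hi => ?_⟩
      have h3 : k = m := by
        rcases Finset.mem_insert.1 h1 with h3 | h3
        · exact h3
        · exact absurd h3 h2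
      rw [h3]
      simp only [mem_iInter] at hm
      exact hm i hi
  obtain ⟨G, -, -, hG2, hG3⟩ := h (BP F) hccc (I ⊕ ℕ) D hcard hD
  refine ⟨{n | ∃ p ∈ G, n ∈ p.fst}, ?_, ?_⟩
  · rw [Set.infinite_iff_exists_gt]
    intro n
    obtain ⟨p, ⟨m, hm, hnm⟩, hpG⟩ := hG3 (Sum.inr (n + 1))
    exact ⟨m, ⟨p, hpG, hm⟩, hnm⟩
  · intro i
    obtain ⟨p, hp, hpG⟩ := hG3 (Sum.inl i)
    refine p.fst.finite_toSet.subset ?_
    rintro n ⟨⟨q, hqG, hnq⟩, hni⟩
    obtain ⟨r, -, hrp, hrq⟩ := hG2 p hpG q hqG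
    rw [BP.le_def] at hrp hrq
    by_contra hnp
    exact hni (hrp.2.2 n (hrq.1 hnq) hnp i hp)

end Pool.Agent.N612.WC
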