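import Mathlib

/-!
# Compact subsets of large weight in dense countably compact subgroups of compact groups

Under `ω₁ < 𝔭` a dense countably compact subgroup `H` of a compact abelian group `K` of weight
`ω₁` contains a compact set which is not first countable (proof of helper639).
-/

set_option autoImplicit false

open Set Filter Topology Cardinal TopologicalSpace

namespace Pool.Agent.N612.WC

/-- `ω₁ < 𝔭` -/
def OmegaOneLtP : Prop :=
  ∀ (I : Type) (F : I → Set ℕ), #I ≤ ℵ₁ → (∀ s : Finset I, (⋂ i ∈ s, F i).Infinite) →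
    ∃ A : Set ℕ, A.Infinite ∧ ∀ i, (A \ F i).Finite

/-- Under `ω₁ < 𝔭`, a countably compact set contains the points of character at most `ω₁` in the
closure of its countable subsets. -/
theorem closure_mem (hp : OmegaOneLtP) {X : Type} [TopologicalSpace X] [T2Space X]
    (D : Set X) (hD : IsCountablyCompact D) (S : Set X) (hSD : S ⊆ D) (hS : S.Countable)
    (x : X) (hx : x ∈ closure S) {I : Type} (hI : #I ≤ ℵ₁) (V : I → Set X)
    (hV : (𝓝 x).HasBasis (fun _ => True) V) : x ∈ D := by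
  by_cases hxS : x ∈ S
  · exact hSD hxS
  have hne : S.Nonempty := closure_nonempty_iff.1 ⟨x, hx⟩
  obtain ⟨e, he⟩ := hS.exists_eq_range hne
  let F : I → Set ℕ := fun q => {k | e k ∈ V q}
  have hfin : ∀ s : Finset I, (⋂ q ∈ s, F q).Infinite := by
    intro s hfin
    have hVs : (⋂ q ∈ s, V q) ∈ 𝓝 x := by
      rw [Filter.biInter_finset_mem]
      intro q _
      exact hV.mem_of_mem trivial
    have hfin' : (e '' (⋂ q ∈ s, F q)).Finite := hfin.image e
    have hx' : x ∉ e '' (⋂ q ∈ s, F q) := by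
      rintro ⟨k, _, hk⟩
      apply hxS
      rw [he, ← hk]
      exact ⟨k, rfl⟩
    have hW : (e '' (⋂ q ∈ s, F q))ᶜ ∈ 𝓝 x := hfin'.isClosed.isOpen_compl.mem_nhds hx'
    obtain ⟨y, hy, hyS⟩ := mem_closure_iff_nhds.1 hx _ (inter_mem hVs hW)
    rw [he] at hyS
    obtain ⟨k, rfl⟩ := hyS
    apply hy.2
    refine ⟨k, ?_, rfl⟩
    have h1 := hy.1
    simp only [mem_iInter] at h1 ⊢
    intro q hq
    exact h1 q hq
  obtain ⟨A, hA, hAF⟩ := hp I F hI hfin
  let f : Filter X := Filter.map e (cofinite ⊓ 𝓟 A)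
  have hne' : NeBot (cofinite ⊓ 𝓟 A) := by
    rw [cofinite_inf_principal_neBot_iff]
    exact hA
  have hnef : NeBot f := hne'.map e
  have hcg : (cofinite : Filter ℕ).IsCountablyGenerated := by
    rw [Nat.cofinite_eq_atTop]; infer_instance
  have hcgf : f.IsCountablyGenerated := by
    have : (cofinite ⊓ 𝓟 A : Filter ℕ).IsCountablyGenerated := inferInstance
    exact Filter.map.isCountablyGenerated _ _
  have hfx : f ≤ 𝓝 x := by
    have : Tendsto e (cofinite ⊓ 𝓟 A) (𝓝 x) := by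
      rw [hV.tendsto_right_iff]
      intro i _
      rw [eventually_inf_principal]
      have h1 := hAF i
      rw [Filter.eventually_cofinite]
      refine h1.subset ?_
      intro k hk
      simp only [mem_ofPred_eq, Classical.not_imp] at hk
      exact ⟨hk.1, hk.2⟩
    exact this
  have hfD : f ≤ 𝓟 D := by
    rw [le_principal_iff]
    refine mem_map.2 (mem_of_superset univ_mem ?_)
    intro k _
    apply hSD
    rw [he]
    exact ⟨k, rfl⟩
  obtain ⟨a, ha, hac⟩ := hD hfD
  have hac' : ClusterPt a (𝓝 x) := hac.mono hfx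
  have hax : a = x := by
    have : NeBot (𝓝 a ⊓ 𝓝 x) := hac'
    exact eq_of_nhds_neBot this
  exact hax ▸ ha

/-- A well-ordered set of type `ω₁`. -/
abbrev W1 : Type := (ℵ₁ : Cardinal.{0}).ord.ToType

theorem mk_W1 : #W1 = ℵ₁ := by simp [W1]

theorem countable_Iio (a : W1) : (Iio a).Countable := by
  have h : #(Iio a) < ℵ₁ := by
    simpa using Cardinal.mk_Iio_lt (α := W1) a (by simp [W1])
  rw [← Cardinal.le_aleph0_iff_set_countable]
  have h2 : (ℵ₁ : Cardinal.{0}) = Order.succ ℵ₀ := by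
    rw [← Cardinal.succ_aleph0]
  exact Order.lt_succ_iff.1 (lt_of_lt_of_eq h h2)

theorem exists_gt (s : Set W1) (hs : s.Countable) : ∃ a, ∀ b ∈ s, b < a := by
  by_contra hcon
  push Not at hcon
  have h1 : (univ : Set W1) ⊆ ⋃ b ∈ s, (insert b (Iio b)) := by
    intro a _
    obtain ⟨b, hb, hab⟩ := hcon a
    simp only [mem_iUnion]
    refine ⟨b, hb, ?_⟩
    rcases hab.eq_or_lt with h | h
    · exact Or.inl h
    · exact Or.inr h
  have h2 : (univ : Set W1).Countable := by
    refine Countable.mono h1 ?_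
    exact hs.biUnion fun b _ => (countable_Iio b).insert b
  rw [← Cardinal.le_aleph0_iff_set_countable, Cardinal.mk_univ, mk_W1] at h2
  exact absurd h2 (not_le.2 Cardinal.aleph0_lt_aleph_one)

section chain

variable {K : Type} [AddCommGroup K] [TopologicalSpace K] [IsTopologicalAddGroup K]

theorem exists_seq (U : Set K) (hU : U ∈ 𝓝 (0 : K)) :
    ∃ W : ℕ → Set K, (∀ n, IsOpen (W n) ∧ (0 : K) ∈ W n) ∧ W 0 ⊆ U ∧
      ∀ n, ∀ x ∈ W (n + 1), ∀ y ∈ W (n + 1), x - y ∈ W n := by
  have step : ∀ A : {A : Set K // IsOpen A ∧ (0 : K) ∈ A}, ∃ B : {A : Set K // IsOpen A ∧ (0 : K) ∈ A},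
      ∀ x ∈ B.1, ∀ y ∈ B.1, x - y ∈ A.1 := by
    intro A
    obtain ⟨V, hV, h⟩ := exists_nhds_half_neg (A.2.1.mem_nhds A.2.2)
    exact ⟨⟨interior V, isOpen_interior, mem_interior_iff_mem_nhds.2 hV⟩, fun x hx y hy =>
      h x (interior_subset hx) y (interior_subset hy)⟩
  choose nxt hnxt using step
  let W : ℕ → {A : Set K // IsOpen A ∧ (0 : K) ∈ A} := fun n =>
    nxt^[n] ⟨interior U, isOpen_interior, mem_interior_iff_mem_nhds.2 hU⟩
  refine ⟨fun n => (W n).1, fun n => (W n).2, interior_subset, ?_⟩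
  intro n x hx y hy
  have h1 : W (n + 1) = nxt (W n) := Function.iterate_succ_apply' nxt n _
  have h2 := hnxt (W n) x
  rw [← h1] at h2
  exact h2 hx y hy

theorem closure_next {A B : Set K} (hA : IsOpen A) (h0 : (0 : K) ∈ A)
    (h : ∀ x ∈ A, ∀ y ∈ A, x - y ∈ B) : closure A ⊆ B := by
  intro y hy
  have h1 : {z : K | z - y ∈ A} ∈ 𝓝 y := by
    have hc : Continuous fun z : K => z - y := by fun_prop
    refine (hA.preimage hc).mem_nhds ?_
    show y - y ∈ A
    rw [sub_self]
    exact h0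
  obtain ⟨z, hz, hzA⟩ := mem_closure_iff_nhds.1 hy _ h1
  have h2 := h z hzA (z - y) hz
  rwa [sub_sub_cancel] at h2

variable [CompactSpace K] [T2Space K]

/-- **The compact set.** -/
theorem core (hp : OmegaOneLtP) (V : W1 → Set K) (hV : (𝓝 (0 : K)).HasBasis (fun _ => True) V)
    (H : AddSubgroup K) (hd : Dense (H : Set K)) (hc : IsCountablyCompact (H : Set K))
    (hn : ¬ (𝓝 (0 : K)).IsCountablyGenerated) :
    ∃ C : Set K, C ⊆ H ∧ IsCompact C ∧ (0 : K) ∈ C ∧
      ∀ O : ℕ → Set K, (∀ n, O n ∈ 𝓝 (0 : K)) → ∃ y ∈ C, y ≠ 0 ∧ ∀ n, y ∈ O n := by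
  have hW := fun b => exists_seq (V b) (hV.mem_of_mem trivial)
  choose W hWo hWV hWs using hW
  have hcl : ∀ b n, closure (W b (n + 1)) ⊆ W b n := fun b n =>
    closure_next (hWo b (n + 1)).1 (hWo b (n + 1)).2 (hWs b n)
  let N : W1 → Set K := fun a => {x | ∀ b, b < a → ∀ n, x ∈ W b n}
  have N0 : ∀ a, (0 : K) ∈ N a := fun a b _ n => (hWo b n).2
  have Nsub : ∀ a x y, x ∈ N a → y ∈ N a → x - y ∈ N a := fun a x y hx hy b hb n =>
    hWs b n x (hx b hb (n + 1)) y (hy b hb (n + 1))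
  have Nadd : ∀ a x y, x ∈ N a → y ∈ N a → x + y ∈ N a := by
    intro a x y hx hy
    have h := Nsub a x (0 - y) hx (Nsub a 0 y (N0 a) hy)
    rwa [zero_sub, sub_neg_eq_add] at h
  have Nmono : ∀ a b, a ≤ b → N b ⊆ N a := fun a b hab x hx c hc n =>
    hx c (lt_of_lt_of_le hc hab) n
  have Ncl : ∀ a, IsClosed (N a) := by
    intro a
    refine isClosed_of_closure_subset fun y hy b hb n => ?_
    refine hcl b n (closure_mono ?_ hy)
    exact fun z hz => hz b hb (n + 1)
  have Tc : ∀ a : W1, ({p : W1 × ℕ | p.1 < a}).Countable := by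
    intro a
    have h : {p : W1 × ℕ | p.1 < a} = Iio a ×ˢ (Set.univ : Set ℕ) := by
      ext p; simp
    rw [h]
    exact (countable_Iio a).prod countable_univ
  -- the filter of the conditions below `a`
  let g : W1 → K → Filter K := fun a x => ⨅ p : {p : W1 × ℕ | p.1 < a}, 𝓟 {z : K | z - x ∈ W p.1.1 p.1.2}
  have gc : ∀ a x, (g a x).IsCountablyGenerated := by
    intro a x
    have : Countable {p : W1 × ℕ | p.1 < a} := (Tc a).to_subtype
    infer_instance
  have gn : ∀ a x, 𝓝 x ≤ g a x := by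
    intro a x
    refine le_iInf fun p => ?_
    rw [le_principal_iff]
    have hcont : Continuous fun z : K => z - x := by fun_prop
    refine ((hWo p.1.1 p.1.2).1.preimage hcont).mem_nhds ?_
    show x - x ∈ W p.1.1 p.1.2
    rw [sub_self]
    exact (hWo _ _).2
  have gcl : ∀ a x y, ClusterPt y (g a x) → y - x ∈ N a := by
    intro a x y hy b hb n
    have h1 : g a x ≤ 𝓟 {z : K | z - x ∈ W b (n + 1)} :=
      iInf_le (fun p : {p : W1 × ℕ | p.1 < a} => 𝓟 {z : K | z - x ∈ W p.1.1 p.1.2}) ⟨(b, n + 1), hb⟩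
    have h2 : y ∈ closure {z : K | z - x ∈ W b (n + 1)} := mem_closure_iff_clusterPt.2 (hy.mono h1)
    have hcont : Continuous fun z : K => z - x := by fun_prop
    exact hcl b n (hcont.closure_preimage_subset (W b (n + 1)) h2)
  have meets : ∀ a x, ∃ h ∈ H, h - x ∈ N a := by
    intro a x
    have hne : NeBot (𝓝 x ⊓ 𝓟 (H : Set K)) := mem_closure_iff_clusterPt.1 (hd x)
    have hne' : NeBot (g a x ⊓ 𝓟 (H : Set K)) := hne.mono (inf_le_inf_right _ (gn a x))
    have := gc a x
    obtain ⟨h, hh, hcl'⟩ := hc (f := g a x ⊓ 𝓟 (H : Set K)) inf_le_right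
    exact ⟨h, hh, gcl a x h (hcl'.mono inf_le_left)⟩
  have Nne : ∀ a, ∃ x ∈ N a, x ≠ 0 := by
    intro a
    by_contra hcon
    push Not at hcon
    apply hn
    have h1 : g a 0 ≤ 𝓝 0 := by
      refine le_nhds_of_unique_clusterPt fun y hy => ?_
      have h2 := gcl a 0 y hy
      rw [sub_zero] at h2
      exact hcon y h2
    have h3 : 𝓝 (0 : K) = g a 0 := le_antisymm (gn a 0) h1
    rw [h3]
    exact gc a 0
  have Nsep : ∀ x : K, x ≠ 0 → ∃ a, x ∉ N a := by
    intro x hx
    have h1 : ({x}ᶜ : Set K) ∈ 𝓝 (0 : K) := isOpen_compl_singleton.mem_nhds (by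
      simpa using hx.symm)
    obtain ⟨b, -, hb⟩ := hV.mem_iff.1 h1
    obtain ⟨a, ha⟩ := exists_gt {b} (countable_singleton b)
    refine ⟨a, fun hxa => ?_⟩
    have h2 := hb (hWV b (hxa b (ha b rfl) 0))
    exact h2 rfl
  have hex : ∀ a, ∃ h ∈ H, h ∈ N a ∧ h ≠ 0 := by
    intro a
    obtain ⟨x, hx, hx0⟩ := Nne a
    obtain ⟨b, hb⟩ := Nsep x hx0
    obtain ⟨h, hh, hhx⟩ := meets (max a b) x
    refine ⟨h, hh, ?_, ?_⟩
    · have h1 := Nadd a _ _ (Nmono a _ (le_max_left a b) hhx) hx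
      rwa [sub_add_cancel] at h1
    · rintro rfl
      apply hb
      have h1 := Nsub b 0 (0 - x) (N0 b) (Nmono b _ (le_max_right a b) hhx)
      rwa [zero_sub, zero_sub, neg_neg] at h1
  choose h hH hN h0 using hex
  refine ⟨closure (range h), ?_, isClosed_closure.isCompact, ?_, ?_⟩
  · intro x hx
    by_cases hx0 : x = 0
    · rw [hx0]
      exact H.zero_mem
    obtain ⟨b, hb⟩ := Nsep x hx0
    have h1 : range h ⊆ h '' Iio b ∪ N b := by
      rintro _ ⟨a, rfl⟩
      rcases lt_or_ge a b with hab | hab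
      · exact Or.inl ⟨a, hab, rfl⟩
      · exact Or.inr (Nmono b a hab (hN a))
    have h2 := closure_mono h1 hx
    rw [closure_union, (Ncl b).closure_eq] at h2
    rcases h2 with h2 | h2
    · have hVx : (𝓝 x).HasBasis (fun _ : W1 => True) (fun i => (fun z => z - x) ⁻¹' V i) := by
        have h3 := hV.comap (fun z : K => z - x)
        have h4 : comap (fun z : K => z - x) (𝓝 0) = 𝓝 x := by
          have h5 := (Homeomorph.subRight x).comap_nhds_eq 0
          simpa using h5
        rwa [h4] at h3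
      refine closure_mem hp (H : Set K) hc (h '' Iio b) ?_ ((countable_Iio b).image h) x h2
        mk_W1.le _ hVx
      rintro _ ⟨a, -, rfl⟩
      exact hH a
    · exact absurd h2 hb
  · rw [mem_closure_iff_nhds]
    intro t ht
    obtain ⟨b, -, hb⟩ := hV.mem_iff.1 ht
    obtain ⟨a, ha⟩ := exists_gt {b} (countable_singleton b)
    exact ⟨h a, hb (hWV b (hN a b (ha b rfl) 0)), a, rfl⟩
  · intro O hO
    have hb := fun n => hV.mem_iff.1 (hO n)
    choose b _ hb using hb
    obtain ⟨a, ha⟩ := exists_gt (range b) (countable_range b)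
    exact ⟨h a, subset_closure ⟨a, rfl⟩, h0 a, fun n => hb n (hWV (b n) (hN a (b n) (ha _ ⟨n, rfl⟩) 0))⟩

end chain

end Pool.Agent.N612.WC
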