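import Pool.Agent.N612.WC.Weight

/-!
# Dense countably compact subgroups are projectively `w`-compact, if `ω₁ < 𝔭`
-/

set_option autoImplicit false

open Set Filter Topology Cardinal TopologicalSpace

namespace Pool.Agent.N612.WC

/-- A dense countably compact subset of a space in which the points have countable character is
everything. -/
theorem eq_univ {K : Type} [TopologicalSpace K] [T2Space K] (H : Set K) (hd : Dense H)
    (hc : IsCountablyCompact H) (h : ∀ x : K, (𝓝 x).IsCountablyGenerated) (x : K) : x ∈ H := by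
  have hne : NeBot (𝓝 x ⊓ 𝓟 H) := mem_closure_iff_clusterPt.1 (hd x)
  have := h x
  obtain ⟨a, ha, hac⟩ := hc (f := 𝓝 x ⊓ 𝓟 H) inf_le_right
  have hac' : ClusterPt a (𝓝 x) := hac.mono inf_le_left
  have hax : a = x := by
    have : NeBot (𝓝 a ⊓ 𝓝 x) := hac'
    exact eq_of_nhds_neBot this
  exact hax ▸ ha

/-- countable character at one point of a group is countable character everywhere -/
theorem nhds_all {K : Type} [AddCommGroup K] [TopologicalSpace K] [IsTopologicalAddGroup K]
    (h : (𝓝 (0 : K)).IsCountablyGenerated) (x : K) : (𝓝 x).IsCountablyGenerated := by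
  have h1 : comap (fun z : K => z - x) (𝓝 0) = 𝓝 x := by
    have h5 := (Homeomorph.subRight x).comap_nhds_eq 0
    simpa using h5
  rw [← h1]
  exact Filter.comap.isCountablyGenerated _ _

section main

variable {K : Type} [AddCommGroup K] [TopologicalSpace K] [IsTopologicalAddGroup K]
  [CompactSpace K] [T2Space K]

/-- The theorem for a dense countably compact subgroup, given by an embedding into a compact
group. -/
theorem main_embedded (hp : OmegaOneLtP) (hw : weight K ≤ ℵ₁) {H : Type} [AddCommGroup H]
    [TopologicalSpace H] (i : H →+ K) (hi : IsEmbedding i) (hd : DenseRange i)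
    (hc : IsCountablyCompact (range i)) :
    ∃ C : Set H, IsCompact C ∧ weight C = weight H := by
  by_cases hn : (𝓝 (0 : K)).IsCountablyGenerated
  · have hall : range i = Set.univ := by
      ext x
      simpa using eq_univ (range i) hd hc (nhds_all hn) x
    refine ⟨Set.univ, ?_, ?_⟩
    · rw [hi.isInducing.isCompact_iff, image_univ, hall]
      exact isCompact_univ
    · refine le_antisymm (weight_le_of_isInducing IsInducing.subtypeVal) ?_
      exact weight_le_of_isInducing (Homeomorph.Set.univ H).symm.isInducing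
  obtain ⟨V, hV⟩ := exists_basis hw (0 : K)
  obtain ⟨C, hCH, hC, h0, hO⟩ := core hp V hV i.range hd hc hn
  have himg : i '' (i ⁻¹' C) = C := by
    rw [image_preimage_eq_inter_range]
    exact inter_eq_left.2 hCH
  refine ⟨i ⁻¹' C, ?_, ?_⟩
  · rw [hi.isInducing.isCompact_iff, himg]
    exact hC
  have h1 : weight (i ⁻¹' C : Set H) ≤ weight H := weight_le_of_isInducing IsInducing.subtypeVal
  have h2 : weight H ≤ ℵ₁ := (weight_le_of_isInducing hi.isInducing).trans hw
  refine le_antisymm h1 (h2.trans ?_)
  by_contra hcon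
  rw [not_le] at hcon
  have h3 : weight (i ⁻¹' C : Set H) ≤ ℵ₀ := by
    have h4 : (ℵ₁ : Cardinal.{0}) = Order.succ ℵ₀ := by
      rw [← Cardinal.succ_aleph0]
    exact Order.lt_succ_iff.1 (lt_of_lt_of_eq hcon h4)
  have hsc := secondCountable h3
  -- the point `0` of the compact set
  have hz : (0 : H) ∈ i ⁻¹' C := by
    show i 0 ∈ C
    rw [map_zero]
    exact h0
  let j : (i ⁻¹' C : Set H) → K := fun y => i y.1
  have hj : IsEmbedding j := hi.comp IsEmbedding.subtypeVal
  obtain ⟨U, hU⟩ := (𝓝 (⟨0, hz⟩ : (i ⁻¹' C : Set H))).exists_antitone_basis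
  have hU1 : ∀ n, ∃ O ∈ 𝓝 (0 : K), j ⁻¹' O ⊆ U n := by
    intro n
    have h5 : U n ∈ 𝓝 (⟨0, hz⟩ : (i ⁻¹' C : Set H)) := hU.1.mem_of_mem trivial
    rw [hj.isInducing.nhds_eq_comap, Filter.mem_comap] at h5
    have h6 : j ⟨0, hz⟩ = 0 := map_zero i
    rw [h6] at h5
    exact h5
  choose O hO1 hO2 using hU1
  obtain ⟨y, hyC, hy0, hyO⟩ := hO O hO1
  obtain ⟨w, rfl⟩ := hCH hyC
  have hw0 : (⟨w, hyC⟩ : (i ⁻¹' C : Set H)) ≠ ⟨0, hz⟩ := by
    intro h
    apply hy0
    have h7 : w = 0 := congrArg Subtype.val h
    rw [h7, map_zero]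
  have hT : T2Space (i ⁻¹' C : Set H) := hj.t2Space
  have h8 : ({(⟨w, hyC⟩ : (i ⁻¹' C : Set H))}ᶜ : Set _) ∈ 𝓝 (⟨0, hz⟩ : (i ⁻¹' C : Set H)) :=
    isOpen_compl_singleton.mem_nhds (by simpa using hw0.symm)
  obtain ⟨n, -, hn'⟩ := hU.1.mem_iff.1 h8
  exact hn' (hO2 n (show j ⟨w, hyC⟩ ∈ O n from hyO n)) rfl

end main

/-- **Main theorem**, commutative images. -/
theorem main_comm (hp : OmegaOneLtP) {G : Type} [AddCommGroup G] [TopologicalSpace G]
    [IsTopologicalAddGroup G] [CompactSpace G] [T2Space G] (hw : weight G ≤ ℵ₁)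
    (D : AddSubgroup G) (hd : Dense (D : Set G)) (hc : IsCountablyCompact (D : Set G))
    {H : Type} [AddCommGroup H] [TopologicalSpace H] [IsTopologicalAddGroup H] [T2Space H]
    (f : D →+ H) (hf : Continuous f) (hs : Function.Surjective f) :
    ∃ C : Set H, IsCompact C ∧ weight C = weight H := by
  let _ : UniformSpace G := IsTopologicalAddGroup.rightUniformSpace G
  have _ : IsUniformAddGroup G := isUniformAddGroup_of_addCommGroup
  let _ : UniformSpace H := IsTopologicalAddGroup.rightUniformSpace H
  have _ : IsUniformAddGroup H := isUniformAddGroup_of_addCommGroup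
  let i : H →+ UniformSpace.Completion H := UniformSpace.Completion.toCompl
  have hiu : IsUniformInducing (i : H → UniformSpace.Completion H) :=
    UniformSpace.Completion.isUniformInducing_coe H
  have hemb : IsEmbedding (i : H → UniformSpace.Completion H) :=
    (UniformSpace.Completion.isUniformEmbedding_coe H).isEmbedding
  have hdi : DenseRange (i : H → UniformSpace.Completion H) := UniformSpace.Completion.denseRange_coe
  have he : IsUniformInducing (Subtype.val : D → G) := isUniformInducing_val _
  have hde : DenseRange (Subtype.val : D → G) := hd.denseRange_val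
  have hfu : UniformContinuous f := uniformContinuous_addMonoidHom_of_continuous hf
  have hgu : UniformContinuous (fun x : D => i (f x)) := hiu.uniformContinuous.comp hfu
  let F : G → UniformSpace.Completion H := (he.isDenseInducing hde).extend (fun x : D => i (f x))
  have hFc : Continuous F := (uniformContinuous_uniformly_extend he hde hgu).continuous
  have hFe : ∀ x : D, F x.1 = i (f x) := fun x => uniformly_extend_of_ind he hde hgu x
  have hsub : range i ⊆ range F := by
    rintro _ ⟨y, rfl⟩
    obtain ⟨x, rfl⟩ := hs y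
    exact ⟨x.1, hFe x⟩
  have hFs : Function.Surjective F := by
    have h1 : IsClosed (range F) := (isCompact_range hFc).isClosed
    have h2 : Dense (range F) := hdi.mono hsub
    rw [← range_eq_univ, ← h1.closure_eq]
    exact h2.closure_eq
  have hK : CompactSpace (UniformSpace.Completion H) := by
    rw [← isCompact_univ_iff, ← range_eq_univ.2 hFs]
    exact isCompact_range hFc
  have hwK : weight (UniformSpace.Completion H) ≤ ℵ₁ := weight_image F hFc hFs hw
  have himg : F '' (D : Set G) = range i := by
    ext y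
    constructor
    · rintro ⟨x, hx, rfl⟩
      exact ⟨f ⟨x, hx⟩, (hFe ⟨x, hx⟩).symm⟩
    · rintro ⟨z, rfl⟩
      obtain ⟨x, rfl⟩ := hs z
      exact ⟨x.1, x.2, hFe x⟩
  refine main_embedded hp hwK i hemb hdi ?_
  rw [← himg]
  exact hc.image hFc

/-- **Main theorem.** -/
theorem main (hp : OmegaOneLtP) {G : Type} [AddCommGroup G] [TopologicalSpace G]
    [IsTopologicalAddGroup G] [CompactSpace G] [T2Space G] (hw : weight G ≤ ℵ₁)
    (D : AddSubgroup G) (hd : Dense (D : Set G)) (hc : IsCountablyCompact (D : Set G))
    {H : Type} [AddGroup H] [TopologicalSpace H] [IsTopologicalAddGroup H] [T2Space H]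
    (f : D →+ H) (hf : Continuous f) (hs : Function.Surjective f) :
    ∃ C : Set H, IsCompact C ∧ weight C = weight H := by
  let _ : AddCommGroup H :=
    { (inferInstance : AddGroup H) with
      add_comm := by
        intro x y
        obtain ⟨a, rfl⟩ := hs x
        obtain ⟨b, rfl⟩ := hs y
        rw [← map_add, ← map_add, add_comm] }
  exact main_comm hp hw D hd hc f hf hs

end Pool.Agent.N612.WC
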