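import Pool.Agent.N612.WC.Core

/-!
# Weights of compact spaces and of their images
-/

set_option autoImplicit false

open Set Filter Topology Cardinal TopologicalSpace

namespace Pool.Agent.N612.WC

/-- the weight of a space: the least cardinality of a base -/
noncomputable def weight (X : Type) [TopologicalSpace X] : Cardinal.{0} :=
  sInf {κ | ∃ B : Set (Set X), IsTopologicalBasis B ∧ #B = κ}

theorem exists_base (X : Type) [TopologicalSpace X] :
    ∃ B : Set (Set X), IsTopologicalBasis B ∧ #B = weight X :=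
  csInf_mem (s := {κ | ∃ B : Set (Set X), IsTopologicalBasis B ∧ #B = κ})
    ⟨_, {U | IsOpen U}, isTopologicalBasis_opens, rfl⟩

theorem weight_le {X : Type} [TopologicalSpace X] {B : Set (Set X)} (hB : IsTopologicalBasis B) :
    weight X ≤ #B :=
  csInf_le' ⟨B, hB, rfl⟩

theorem weight_le_of_isInducing {X Y : Type} [TopologicalSpace X] [TopologicalSpace Y] {g : X → Y}
    (hg : IsInducing g) : weight X ≤ weight Y := by
  obtain ⟨B, hB, hc⟩ := exists_base Y
  rw [← hc]
  exact (weight_le (hB.isInducing hg)).trans mk_image_le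

/-- A space with a countable base. -/
theorem secondCountable {X : Type} [TopologicalSpace X] (h : weight X ≤ ℵ₀) :
    SecondCountableTopology X := by
  obtain ⟨B, hB, hc⟩ := exists_base X
  rw [← hc, Cardinal.le_aleph0_iff_set_countable] at h
  exact hB.secondCountableTopology h

/-- Continuous images of compact spaces of weight at most `ω₁`. -/
theorem weight_image {G K : Type} [TopologicalSpace G] [TopologicalSpace K] [CompactSpace G]
    [T2Space K] (F : G → K) (hF : Continuous F) (hs : Function.Surjective F)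
    (hw : weight G ≤ ℵ₁) : weight K ≤ ℵ₁ := by
  classical
  obtain ⟨B, hB, hc⟩ := exists_base G
  have hB1 : #B ≤ ℵ₁ := hc.le.trans hw
  let S : Finset B → Set K := fun t => (F '' (⋃ b ∈ t, (b : Set G))ᶜ)ᶜ
  have hopen : ∀ t : Finset B, IsOpen (⋃ b ∈ t, (b : Set G)) := fun t =>
    isOpen_biUnion fun b _ => hB.isOpen b.2
  have hbas : IsTopologicalBasis (range S) := by
    refine isTopologicalBasis_of_isOpen_of_nhds ?_ ?_
    · rintro _ ⟨t, rfl⟩
      exact ((hopen t).isClosed_compl.isCompact.image hF).isClosed.isOpen_compl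
    · intro x O hx hO
      have hcomp : IsCompact (F ⁻¹' {x}) := (isClosed_singleton.preimage hF).isCompact
      have hU : IsOpen (F ⁻¹' O) := hO.preimage hF
      have hsub : F ⁻¹' {x} ⊆ F ⁻¹' O := by
        rintro y rfl
        exact hx
      let I := {b : B // (b : Set G) ⊆ F ⁻¹' O}
      obtain ⟨t, ht⟩ := hcomp.elim_finite_subcover (fun b : I => ((b.1 : B) : Set G))
        (fun b => hB.isOpen b.1.2) (by
          intro y hy
          obtain ⟨b, hb, hyb, hbO⟩ := hB.mem_nhds_iff.1 (hU.mem_nhds (hsub hy))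
          exact mem_iUnion.2 ⟨⟨⟨b, hb⟩, hbO⟩, hyb⟩)
      refine ⟨S (t.image Subtype.val), ⟨_, rfl⟩, ?_, ?_⟩
      · rintro ⟨y, hy, hyx⟩
        apply hy
        have h1 := ht hyx
        simp only [mem_iUnion] at h1 ⊢
        obtain ⟨b, hb, hyb⟩ := h1
        exact ⟨b.1, Finset.mem_image_of_mem _ hb, hyb⟩
      · intro z hz
        obtain ⟨y, rfl⟩ := hs z
        by_contra hcon
        apply hz
        refine ⟨y, ?_, rfl⟩
        intro hy
        simp only [mem_iUnion] at hy
        obtain ⟨b, hb, hyb⟩ := hy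
        obtain ⟨b', -, rfl⟩ := Finset.mem_image.1 hb
        exact hcon (b'.2 hyb)
  refine (weight_le hbas).trans (mk_range_le.trans ?_)
  rcases finite_or_infinite B with h | h
  · exact (Cardinal.lt_aleph0_of_finite (Finset B)).le.trans (aleph0_le_aleph 1)
  · rw [Cardinal.mk_finset_of_infinite]
    exact hB1

/-- A base of neighbourhoods indexed by a well-ordered set of type `ω₁`. -/
theorem exists_basis {K : Type} [TopologicalSpace K] (hw : weight K ≤ ℵ₁) (x : K) :
    ∃ V : W1 → Set K, (𝓝 x).HasBasis (fun _ => True) V := by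
  obtain ⟨B, hB, hc⟩ := exists_base K
  have hB1 : #B ≤ ℵ₁ := hc.le.trans hw
  let I := {b : B // x ∈ (b : Set K)}
  have hI : #I ≤ #W1 := by
    rw [mk_W1]
    exact (Cardinal.mk_subtype_le _).trans hB1
  have hne : Nonempty I := by
    obtain ⟨b, hb, hxb, -⟩ := hB.mem_nhds_iff.1 (univ_mem : (Set.univ : Set K) ∈ 𝓝 x)
    exact ⟨⟨⟨b, hb⟩, hxb⟩⟩
  obtain ⟨e⟩ := Cardinal.le_def _ _ |>.1 hI
  obtain ⟨s, hs⟩ : ∃ s : W1 → I, Function.Surjective s :=
    ⟨Function.invFun e, Function.invFun_surjective e.injective⟩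
  refine ⟨fun a => ((s a).1 : Set K), ⟨fun t => ?_⟩⟩
  constructor
  · intro ht
    obtain ⟨b, hb, hxb, hbt⟩ := hB.mem_nhds_iff.1 ht
    obtain ⟨a, ha⟩ := hs ⟨⟨b, hb⟩, hxb⟩
    refine ⟨a, trivial, ?_⟩
    rw [ha]
    exact hbt
  · rintro ⟨a, -, ha⟩
    exact mem_of_superset ((hB.isOpen (s a).1.2).mem_nhds (s a).2) ha

/-- The weight of `(ℤ/2)^ι`. -/
theorem weight_pi (ι : Type) (hι : #ι = ℵ₁) : weight (ι → ZMod 2) ≤ ℵ₁ := by
  classical
  have hinf : Infinite ι := by
    rw [Cardinal.infinite_iff, hι]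
    exact aleph0_le_aleph 1
  have hb := isTopologicalBasis_pi (X := fun _ : ι => ZMod 2)
    (T := fun _ => {U | IsOpen U}) (fun _ => isTopologicalBasis_opens)
  let S : Finset (ι × Set (ZMod 2)) → Set (ι → ZMod 2) := fun t => {x | ∀ p ∈ t, x p.1 ∈ p.2}
  have hsub : {S : Set (ι → ZMod 2) | ∃ (U : ∀ _ : ι, Set (ZMod 2)) (F : Finset ι),
      (∀ i, i ∈ F → U i ∈ {U : Set (ZMod 2) | IsOpen U}) ∧ S = (F : Set ι).pi U} ⊆ range S := by
    rintro _ ⟨U, F, -, rfl⟩
    refine ⟨F.image fun i => (i, U i), ?_⟩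
    ext x
    simp [S, Set.mem_pi]
  refine (weight_le hb).trans ((Cardinal.mk_le_mk_of_subset hsub).trans (mk_range_le.trans ?_))
  have h2 : Infinite (ι × Set (ZMod 2)) := inferInstance
  rw [Cardinal.mk_finset_of_infinite, mk_prod, lift_id, lift_id, hι]
  refine mul_le_of_le (aleph0_le_aleph 1) le_rfl ?_
  exact (Cardinal.lt_aleph0_of_finite (Set (ZMod 2))).le.trans (aleph0_le_aleph 1)

/-- `(ℤ/2)^ι` is not metrizable. -/
theorem not_metrizable (ι : Type) (hι : #ι = ℵ₁) : ¬ MetrizableSpace (ι → ZMod 2) := by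
  classical
  intro hm
  have hfc : FirstCountableTopology (ι → ZMod 2) := by
    let _ := metrizableSpaceMetric (ι → ZMod 2)
    infer_instance
  obtain ⟨O, hO⟩ := (𝓝 (0 : ι → ZMod 2)).exists_antitone_basis
  have h1 : ∀ n, ∃ t : Finset ι, ∀ x : ι → ZMod 2, (∀ i ∈ t, x i = 0) → x ∈ O n := by
    intro n
    have h2 : O n ∈ 𝓝 (0 : ι → ZMod 2) := hO.1.mem_of_mem trivial
    rw [nhds_pi, Filter.mem_pi] at h2
    obtain ⟨I, hI, t, ht, hsub⟩ := h2
    refine ⟨hI.toFinset, fun x hx => hsub fun i hi => ?_⟩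
    rw [hx i (hI.mem_toFinset.2 hi)]
    exact mem_of_mem_nhds (ht i)
  choose t ht using h1
  have hcount : (⋃ n, (t n : Set ι)).Countable := countable_iUnion fun n => (t n).countable_toSet
  obtain ⟨i, hi⟩ : ∃ i, i ∉ ⋃ n, (t n : Set ι) := by
    by_contra hcon
    push Not at hcon
    have h2 : (Set.univ : Set ι).Countable := hcount.mono fun i _ => hcon i
    rw [← Cardinal.le_aleph0_iff_set_countable, Cardinal.mk_univ, hι] at h2
    exact absurd h2 (not_le.2 Cardinal.aleph0_lt_aleph_one)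
  have h3 : {x : ι → ZMod 2 | x i = 0} ∈ 𝓝 (0 : ι → ZMod 2) := by
    have h7 : Continuous fun x : ι → ZMod 2 => x i := continuous_apply i
    have h6 : IsOpen ((fun x : ι → ZMod 2 => x i) ⁻¹' {0}) :=
      (isOpen_discrete ({0} : Set (ZMod 2))).preimage h7
    exact h6.mem_nhds rfl
  obtain ⟨n, -, hn⟩ := hO.1.mem_iff.1 h3
  have h4 : (Pi.single i (1 : ZMod 2) : ι → ZMod 2) ∈ O n := by
    refine ht n _ fun j hj => ?_
    have hji : j ≠ i := by
      rintro rfl
      exact hi (mem_iUnion.2 ⟨n, hj⟩)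
    simp [hji]
  have h5 := hn h4
  simp at h5

end Pool.Agent.N612.WC
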